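import Pool.Agent.helper36.UT.Spec

/-!
Row FAC of project UT: no proper factorisation of `2 ^ (2 ^ n) + 1` in the class `RR`.
-/

set_option autoImplicit false

open Filter Polynomial FirstOrder FirstOrder.Language

namespace Pool.Agent.UnivT

theorem FAC_mono (hLSU : LSU_stmt) (k j : ℕ) (f : ℕ → ℤ) (h : Lev k f) : Lev (k + j) f := by
  induction j with
  | zero => exact h
  | succ j ih => exact hLSU _ _ ih

theorem FAC_common (hLSU : LSU_stmt) (x y n : ℕ → ℤ) (hx : RR x) (hy : RR y) (hn : RR n) :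
    ∃ k, Lev k x ∧ Lev k y ∧ Lev k n := by
  obtain ⟨a, ha⟩ := hx
  obtain ⟨b, hb⟩ := hy
  obtain ⟨c, hc⟩ := hn
  refine ⟨a + b + c, ?_, ?_, ?_⟩
  · have h := FAC_mono hLSU a (b + c) x ha
    rwa [← add_assoc] at h
  · have h := FAC_mono hLSU b (a + c) y hb
    have e : b + (a + c) = a + b + c := by omega
    rwa [e] at h
  · have h := FAC_mono hLSU c (a + b) n hc
    have e : c + (a + b) = a + b + c := by omega
    rwa [e] at h

theorem FAC_zero (f : ℕ → ℤ) (hT : Tri f) (hf : ∃ᶠ H : ℕ in atTop, f H = 0) : ∀ᶠ H : ℕ in atTop, f H = 0 := by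
  rcases hT with ⟨c, hc⟩ | h | h
  · obtain ⟨H, h1, h2⟩ := (hf.and_eventually hc).exists
    have hc0 : c = 0 := by rw [← h2, h1]
    filter_upwards [hc] with H hH
    rw [hH, hc0]
  · exfalso
    obtain ⟨H, h1, h2⟩ := (hf.and_eventually (h.eventually (eventually_gt_atTop 0))).exists
    omega
  · exfalso
    obtain ⟨H, h1, h2⟩ := (hf.and_eventually (h.eventually (eventually_lt_atBot 0))).exists
    omega

theorem FAC_odd (m : ℕ) : ¬ (2 : ℤ) ∣ 2 ^ (2 ^ m) + 1 := by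
  intro h
  have h1 : (2 : ℤ) ∣ 2 ^ (2 ^ m) := dvd_pow_self 2 (by positivity)
  have h2 : (2 : ℤ) ∣ 1 := (Int.dvd_add_right h1).mp h
  omega

theorem FAC_const (hCSF : CSF_stmt) (x y n : ℕ → ℤ) (hn : Tendsto n atTop atTop) (w : ℕ → ℤ) (P : ℚ[X])
    (hP : P.natDegree = 0)
    (hxy : ∀ᶠ H : ℕ in atTop, x H * y H = 2 ^ (2 ^ (n H).toNat) + 1)
    (hx : ∀ᶠ H : ℕ in atTop, (x H : ℚ) = P.eval ((2 : ℚ) ^ (w H))) :
    ∀ᶠ H : ℕ in atTop, |x H| = 1 := by
  have hPC : P = C (P.coeff 0) := eq_C_of_natDegree_eq_zero hP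
  have hx' : ∀ᶠ H : ℕ in atTop, (x H : ℚ) = P.coeff 0 := by
    filter_upwards [hx] with H hH
    rw [hH, hPC]
    simp
  obtain ⟨H0, hH0⟩ := hx'.exists
  have hx2 : ∀ᶠ H : ℕ in atTop, x H = x H0 := by
    filter_upwards [hx'] with H hH
    have : (x H : ℚ) = x H0 := by rw [hH, hH0]
    exact_mod_cast this
  have hd : ∀ᶠ H : ℕ in atTop, x H0 ∣ 2 ^ (2 ^ (n H).toNat) + 1 := by
    filter_upwards [hx2, hxy] with H h1 h2
    rw [← h2, h1]
    exact dvd_mul_right _ _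
  have h1 := hCSF (x H0) n hn hd
  filter_upwards [hx2] with H hH
  rw [hH, h1]

theorem FAC (hLGD : LGD_stmt) (hLSU : LSU_stmt) (hMUL : MUL_stmt) (hPOW : POW_stmt) (hSTD : STD_stmt)
    (hODD : ODD_stmt) (hPLY : PLY_stmt) (hIRR : IRR_stmt) (hCSF : CSF_stmt) : FAC_stmt := by
  intro x y n hx hy hn hnt hfr
  obtain ⟨k, hkx, hky, hkn⟩ := FAC_common hLSU x y n hx hy hn
  set u : ℕ → ℤ := fun H => (2 : ℤ) ^ (n H).toNat with hu
  have hku : Lev (k + 1) u := hPOW k n hkn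
  have hkv : Lev (k + 2) fun H => (2 : ℤ) ^ (u H).toNat := hPOW (k + 1) u hku
  have hkx2 : Lev (k + 2) x := FAC_mono hLSU k 2 x hkx
  have hky2 : Lev (k + 2) y := FAC_mono hLSU k 2 y hky
  have hkm : Lev (k + 2) fun H => x H * y H := hMUL (k + 1) x y hkx2 hky2
  have hG := hLGD (k + 2)
  have hk1 : Lev (k + 2) fun H => x H * y H - 2 ^ (u H).toNat := hG.2.1 _ _ hkm hkv
  have hk2 : Lev (k + 2) fun H => x H * y H - 2 ^ (u H).toNat - 1 :=
    hG.2.1 _ (fun _ => 1) hk1 (hG.1 1)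
  have huN : ∀ H, (u H).toNat = 2 ^ (n H).toNat := by
    intro H
    have : u H = ((2 ^ (n H).toNat : ℕ) : ℤ) := by simp [hu]
    rw [this, Int.toNat_natCast]
  have hxy0 : ∀ᶠ H : ℕ in atTop, x H * y H - 2 ^ (u H).toNat - 1 = 0 := by
    refine FAC_zero _ (hG.2.2.2 _ hk2) (hfr.mono ?_)
    intro H hH
    rw [huN, hH]
    ring
  have hxy : ∀ᶠ H : ℕ in atTop, x H * y H = 2 ^ (2 ^ (n H).toNat) + 1 := by
    filter_upwards [hxy0] with H hH
    rw [huN] at hH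
    linarith
  have hxyQ : ∀ᶠ H : ℕ in atTop, (x H : ℚ) * y H = 1 + (2 : ℚ) ^ (u H) := by
    filter_upwards [hxy] with H hH
    have h1 : (x H : ℚ) * y H = ((x H * y H : ℤ) : ℚ) := by push_cast; rfl
    have h2 : u H = ((2 ^ (n H).toNat : ℕ) : ℤ) := by simp [hu]
    rw [h1, hH, h2, zpow_natCast]
    push_cast
    ring
  have hut : Tendsto u atTop atTop := by
    have h1 : Tendsto (fun H => ((n H).toNat : ℤ)) atTop atTop := by
      refine tendsto_atTop_mono (fun H => ?_) hnt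
      exact Int.self_le_toNat _
    refine tendsto_atTop_mono (fun H => ?_) h1
    have h2 : (n H).toNat < 2 ^ (n H).toNat := Nat.lt_two_pow_self
    have h3 : (((n H).toNat : ℕ) : ℤ) < ((2 ^ (n H).toNat : ℕ) : ℤ) := by exact_mod_cast h2
    have h4 : u H = ((2 ^ (n H).toNat : ℕ) : ℤ) := by simp [hu]
    rw [h4]
    exact h3.le
  obtain ⟨q1, l1, h1⟩ := hSTD (k + 1) x hkx2
  obtain ⟨q2, l2, h2⟩ := hSTD (k + 1) y hky2
  have hq1 : q1 ≠ 0 := by
    intro h0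
    rw [h0] at h1
    obtain ⟨H, hH1, hH2⟩ := ((hODD (k + 1) l1 x h1).and hxy).exists
    have : (2 : ℤ) ∣ x H * y H := Dvd.dvd.mul_right hH1 _
    rw [hH2] at this
    exact FAC_odd _ this
  have hq2 : q2 ≠ 0 := by
    intro h0
    rw [h0] at h2
    obtain ⟨H, hH1, hH2⟩ := ((hODD (k + 1) l2 y h2).and hxy).exists
    have : (2 : ℤ) ∣ x H * y H := Dvd.dvd.mul_left hH1 _
    rw [hH2] at this
    exact FAC_odd _ this
  obtain ⟨d, r, w, P, Q, hd, hwt, huw, hPQ, hxP, hyQ⟩ :=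
    hPLY (k + 1) q1 l1 x q2 l2 y u h1 h2 hq1 hq2 hku hut hxyQ
  have hdeg : P.natDegree = 0 ∨ Q.natDegree = 0 := by
    obtain ⟨H, hH1, hH2, hH3⟩ := (huw.and ((hwt.eventually (eventually_ge_atTop 0)).and
      (hnt.eventually (eventually_ge_atTop (d : ℤ))))).exists
    refine hIRR d (n H).toNat (w H).toNat r hd (by omega) ?_ P Q hPQ
    have h4 : u H = ((2 ^ (n H).toNat : ℕ) : ℤ) := by simp [hu]
    have h5 : w H = (((w H).toNat : ℕ) : ℤ) := by omega
    rw [h4, h5] at hH1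
    exact_mod_cast hH1
  rcases hdeg with h | h
  · filter_upwards [FAC_const hCSF x y n hnt w P h hxy hxP] with H hH
    exact Or.inl hH
  · have hyx : ∀ᶠ H : ℕ in atTop, y H * x H = 2 ^ (2 ^ (n H).toNat) + 1 := by
      filter_upwards [hxy] with H hH
      rw [mul_comm, hH]
    filter_upwards [FAC_const hCSF y x n hnt w Q h hyx hyQ] with H hH
    exact Or.inr hH

end Pool.Agent.UnivT
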