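import Pool.Agent.helper36.UT.Spec

/-!
Row TRM of project UT: the terms of the language map the class `RR` to itself.
-/

set_option autoImplicit false

open Filter Polynomial FirstOrder FirstOrder.Language

namespace Pool.Agent.UnivT

theorem TRM (hLNG : LNG_stmt) : TRM_stmt := by
  intro β v hv t
  induction t with
  | var b => exact hv b
  | func F ts ih =>
    exact hLNG F (fun i H => (ts i).realize fun b => v b H) ih

end Pool.Agent.UnivT
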